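import Pool.Agent.Hhelper4.FinitaryBallean
import Pool.Agent.Hhelper4.Bergman.Recursion

/-!
There is a Bergman group with a slowly oscillating real function that is not constant at infinity.
-/

namespace Pool.Agent.Results.MP_5c36f9_al.Counterexample

open Topology Set Pointwise Pool.Agent.Hhelper4.FinitaryBallean Pool.Agent.Hhelper4.Bergman

/-- the step function on the integers -/
noncomputable def stepFun (x : Multiplicative ℤ) : ℝ := if 0 ≤ x.toAdd then 1 else 0

theorem stepFun_mem (x : Multiplicative ℤ) : 0 ≤ stepFun x ∧ stepFun x ≤ 1 := by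
  unfold stepFun
  split_ifs <;> norm_num

theorem stepFun_so (g : Multiplicative ℤ) (ε : ℝ) (hε : 0 < ε) :
    {x | ε ≤ |stepFun (x * g) - stepFun x|}.Finite := by
  have h : (Set.Icc (-|g.toAdd|) |g.toAdd|).Finite := Set.finite_Icc _ _
  refine (h.image Multiplicative.ofAdd).subset ?_
  intro x hx
  refine ⟨x.toAdd, ?_, rfl⟩
  have hx' : ε ≤ |stepFun (x * g) - stepFun x| := hx
  have hadd : (x * g).toAdd = x.toAdd + g.toAdd := rfl
  unfold stepFun at hx'
  rw [hadd] at hx'
  rw [Set.mem_Icc]
  have h1 := abs_nonneg g.toAdd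
  have h2 := le_abs_self g.toAdd
  have h3 := neg_abs_le g.toAdd
  by_cases ha : 0 ≤ x.toAdd + g.toAdd <;> by_cases hb : 0 ≤ x.toAdd
  · simp [ha, hb] at hx'; linarith
  · constructor <;> omega
  · constructor <;> omega
  · simp [ha, hb] at hx'; linarith

/-- in a group in which all sequences are short words, every chain stops -/
theorem bergman_of_words {G : Type} [Group G]
    (h : ∀ e : ℕ → G, ∃ x u t : G, ∀ k, e k = wd x u t k) : IsBergman G := by
  rintro ⟨X, hmono, hun, hinv, hmul⟩
  have hne : ∀ n, ∃ g, g ∉ X n := by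
    intro n
    have h1 : X n ⊂ X (n + 1) := hmono (Nat.lt_succ_self n)
    obtain ⟨g, _, hg⟩ := Set.exists_of_ssubset h1
    exact ⟨g, hg⟩
  choose c hc using hne
  obtain ⟨x, u, t, hk⟩ := h fun k => c (2 * k + 5)
  have hmem : ∀ g : G, ∃ n, g ∈ X n := by
    intro g
    have : g ∈ ⋃ n, X n := by rw [hun]; trivial
    exact mem_iUnion.mp this
  obtain ⟨n0, h0⟩ := hmem 1
  obtain ⟨n1, h1⟩ := hmem x
  obtain ⟨n2, h2⟩ := hmem u
  obtain ⟨n3, h3⟩ := hmem t
  let m := max (max n0 n1) (max n2 n3)
  have hle : ∀ {p q : ℕ}, p ≤ q → X p ⊆ X q := fun hpq => hmono.monotone hpq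
  have h0' : (1 : G) ∈ X m := hle (by omega) h0
  have h1' : x ∈ X m := hle (by omega) h1
  have h2' : u ∈ X m := hle (by omega) h2
  have h3' : t ∈ X m := hle (by omega) h3
  have hM : ∀ {p : ℕ} {a b : G}, a ∈ X p → b ∈ X p → a * b ∈ X (p + 1) :=
    fun ha hb => hmul _ ⟨_, ha, _, hb, rfl⟩
  have hI : ∀ {p : ℕ} {a : G}, a ∈ X p → a⁻¹ ∈ X p := by
    intro p a ha
    rw [← hinv p]
    simpa using ha
  have hpow : ∀ {a : G}, a ∈ X m → ∀ k, a ^ k ∈ X (m + k) := by
    intro a ha k
    induction k with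
    | zero => simpa using h0'
    | succ k ih =>
      rw [pow_succ]
      exact hM ih (hle (Nat.le_add_right m k) ha)
  have hconj : ∀ {a b : G}, a ∈ X m → b ∈ X m → ∀ k, a ^ k * b * (a ^ k)⁻¹ ∈ X (m + k + 2) := by
    intro a b ha hb k
    have e1 := hM (hpow ha k) (hle (by omega : m ≤ m + k) hb)
    exact hM e1 (hI (hle (by omega) (hpow ha k)))
  have key : c (2 * m + 5) ∈ X (2 * m + 5) := by
    rw [hk m, wd]
    have e1 := hconj h1' h2' m
    have e2 := hI (hconj h2' h1' m)
    have e3 := hM (hle (by omega : m ≤ m + m + 2) h3') e1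
    have e4 := hM e3 (hI (hle (by omega : m ≤ m + m + 2 + 1) h3'))
    have e5 := hM e4 (hle (by omega : m + m + 2 ≤ m + m + 2 + 1 + 1) e2)
    exact hle (by omega) e5
  exact hc _ key

theorem result : ∃ (G : Type) (_ : Group G), IsBergman G ∧
    ∃ f : G → ℝ, SlowlyOscillating f ∧ ¬ ConstantAtInfinity f := by
  classical
  obtain ⟨I, hcard, hI⟩ := exists_index
  obtain ⟨κ⟩ : Nonempty (Multiplicative ℤ ↪ I) := by
    have h1 : Cardinal.mk (Multiplicative ℤ) ≤ Cardinal.mk I := by
      rw [hcard]
      exact Cardinal.mk_le_aleph0.trans Cardinal.aleph0_le_continuum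
    exact (Cardinal.le_def _ _).mp h1
  let j : Multiplicative ℤ → Option I × I := fun n => (none, κ n)
  have hj : Function.Injective j := fun a b hab => κ.injective (Prod.ext_iff.mp hab).2
  obtain ⟨P, hle, hP⟩ := hI (ofInj j hj stepFun stepFun_mem stepFun_so) (by
    rintro _ ⟨n, rfl⟩
    rfl)
  have hmem : ∀ n, j n ∈ P.C := fun n => hle.1 ⟨n, rfl⟩
  have hval : ∀ n, P.f (j n) = stepFun n := by
    intro n
    rw [hle.2.2.1 (j n) ⟨n, rfl⟩]
    show stepFun (Function.invFun j (j n)) = stepFun n
    rw [Function.leftInverse_invFun hj]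
  refine ⟨P.C, inferInstance, ?_, fun a => P.f ((a⁻¹ : P.C) : Option I × I), ?_, ?_⟩
  · apply bergman_of_words
    intro e
    obtain ⟨x, u, t, hk⟩ := hP (fun k => (e k : Option I × I)) (fun k => (e k).2)
    exact ⟨x, u, t, fun k => Subtype.ext (hk k)⟩
  · rw [slowlyOscillating_iff]
    intro g ε hε
    have h1 := P.so ((g⁻¹ : P.C) : Option I × I) (g⁻¹ : P.C).2 ε hε
    have h2 : Function.Injective (fun x : P.C => ((x⁻¹ : P.C) : Option I × I)) := by
      intro a b hab
      exact inv_injective (Subtype.ext hab)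
    refine (h1.preimage (f := fun x : P.C => ((x⁻¹ : P.C) : Option I × I)) h2.injOn).subset ?_
    intro x hx
    refine ⟨(x⁻¹ : P.C).2, ?_⟩
    have hx' : ε ≤ |P.f (((g * x)⁻¹ : P.C) : Option I × I) - P.f ((x⁻¹ : P.C) : Option I × I)| := hx
    rw [mul_inv_rev, P.coe_mul] at hx'
    exact hx'
  · rintro ⟨c, hc⟩
    have hfin := hc (Metric.ball c (1 / 2)) (Metric.ball_mem_nhds c (by norm_num))
    let z : Multiplicative ℤ → P.C := fun n => (⟨j n, hmem n⟩ : P.C)⁻¹
    have hz : Function.Injective z := by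
      intro a b hab
      have h1 := inv_injective hab
      exact hj (congrArg Subtype.val h1)
    have hfz : ∀ n, P.f (((z n)⁻¹ : P.C) : Option I × I) = stepFun n := by
      intro n
      simp only [z, inv_inv]
      exact hval n
    by_cases h0 : |c| < 1 / 2
    · have hinf : (range fun n : ℕ => z (Multiplicative.ofAdd (n : ℤ))).Infinite := by
        apply Set.infinite_range_of_injective
        intro a b hab
        have h1 := Multiplicative.ofAdd.injective (hz hab)
        exact_mod_cast h1
      apply hinf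
      refine hfin.subset ?_
      rintro _ ⟨n, rfl⟩ hmem'
      have h1 : dist (P.f (((z (Multiplicative.ofAdd (n : ℤ)))⁻¹ : P.C) : Option I × I)) c
          < 1 / 2 := hmem'
      rw [hfz] at h1
      have h2 : stepFun (Multiplicative.ofAdd (n : ℤ)) = 1 := by
        unfold stepFun
        rw [if_pos]
        simp
      rw [h2, Real.dist_eq] at h1
      rw [abs_lt] at h0 h1
      linarith [h0.1, h0.2, h1.1, h1.2]
    · have hinf : (range fun n : ℕ => z (Multiplicative.ofAdd (-(n : ℤ) - 1))).Infinite := by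
        apply Set.infinite_range_of_injective
        intro a b hab
        have h1 := Multiplicative.ofAdd.injective (hz hab)
        omega
      apply hinf
      refine hfin.subset ?_
      rintro _ ⟨n, rfl⟩ hmem'
      have h1 : dist (P.f (((z (Multiplicative.ofAdd (-(n : ℤ) - 1)))⁻¹ : P.C) : Option I × I)) c
          < 1 / 2 := hmem'
      rw [hfz] at h1
      have h2 : stepFun (Multiplicative.ofAdd (-(n : ℤ) - 1)) = 0 := by
        unfold stepFun
        rw [if_neg]
        simp only [toAdd_ofAdd, not_le]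
        omega
      rw [h2, Real.dist_eq, zero_sub, abs_neg] at h1
      exact h0 h1

end Pool.Agent.Results.MP_5c36f9_al.Counterexample
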