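import Pool.Agent.Hhelper4.FinitaryBallean

/-!
Every slowly oscillating real function on the symmetric group of an arbitrary set (with its
finitary ballean) is constant at infinity.
-/

namespace Pool.Agent.Results.MP_5c36f9_al.SymmetricGroup

open Topology Set Pointwise Pool.Agent.Hhelper4.FinitaryBallean

/-- the points where left translation by `g` changes the value of `f` form a countable set -/
theorem countable_ne {G : Type*} [Group G] {f : G → ℝ}
    (hf : ∀ g : G, ∀ ε > (0 : ℝ), {x | ε ≤ |f (g * x) - f x|}.Finite) (g : G) :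
    {x | f (g * x) ≠ f x}.Countable := by
  have : {x | f (g * x) ≠ f x} ⊆ ⋃ n : ℕ, {x | 1 / ((n : ℝ) + 1) ≤ |f (g * x) - f x|} := by
    intro x hx
    have hpos : 0 < |f (g * x) - f x| := abs_pos.mpr (sub_ne_zero.mpr hx)
    obtain ⟨n, hn⟩ := exists_nat_one_div_lt hpos
    exact Set.mem_iUnion.mpr ⟨n, hn.le⟩
  refine Set.Countable.mono this ?_
  exact Set.countable_iUnion fun n => (hf g _ (by positivity)).countable

theorem not_countable_set_nat : ¬ Countable (Set ℕ) := by
  intro h
  obtain ⟨g, hg⟩ := exists_surjective_nat (Set ℕ)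
  exact Function.cantor_surjective g hg

theorem result (X : Type*) (f : Equiv.Perm X → ℝ) (hf : SlowlyOscillating f) :
    ConstantAtInfinity f := by
  classical
  rw [slowlyOscillating_iff] at hf
  rcases finite_or_infinite X with hX | hX
  · exact ⟨0, fun O _ => Set.toFinite _⟩
  let ι : ℕ ↪ X := Infinite.natEmbedding X
  let Y : Set X := range ι
  let C : Set (Equiv.Perm X) :=
    ⋃ a : ℕ, ⋃ b : ℕ, {x | f (Equiv.swap (ι a) (ι b) * x) ≠ f x}
  have hC : C.Countable :=
    Set.countable_iUnion fun a => Set.countable_iUnion fun b => countable_ne hf _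
  -- outside `C` the function is invariant under right multiplication by suitable transpositions
  have hinv : ∀ x : Equiv.Perm X, x ∉ C → ∀ p q : X, x p ∈ Y → x q ∈ Y →
      f (x * Equiv.swap p q) = f x := by
    intro x hx p q hp hq
    obtain ⟨a, ha⟩ := hp
    obtain ⟨b, hb⟩ := hq
    have h1 : x * Equiv.swap p q = Equiv.swap (ι a) (ι b) * x := by
      rw [Equiv.mul_swap_eq_swap_mul, ha, hb]
    rw [h1]
    by_contra hne
    exact hx (Set.mem_iUnion.mpr ⟨a, Set.mem_iUnion.mpr ⟨b, hne⟩⟩)
  -- Lemma A
  have lemA : ∀ x y : Equiv.Perm X, x ∉ C → y ∉ C →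
      {p | x p ∈ Y ∧ y p ∈ Y}.Infinite → f x = f y := by
    intro x y hx hy hinf
    by_contra hne
    obtain ⟨p₀, hp₀⟩ := hinf.nonempty
    have hε : 0 < |f y - f x| := abs_pos.mpr (sub_ne_zero.mpr (Ne.symm hne))
    have hfin := hf (y * x⁻¹) _ hε
    have hinf' : ((fun p => x * Equiv.swap p₀ p) '' {p | x p ∈ Y ∧ y p ∈ Y}).Infinite := by
      apply hinf.image
      intro p _ q _ hpq
      have h1 : Equiv.swap p₀ p = Equiv.swap p₀ q := mul_left_cancel hpq
      have h2 := congrArg (fun e : Equiv.Perm X => e p₀) h1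
      simpa using h2
    apply hinf'
    refine hfin.subset ?_
    rintro _ ⟨p, hp, rfl⟩
    have h1 : f (x * Equiv.swap p₀ p) = f x := hinv x hx p₀ p hp₀.1 hp.1
    have h2 : f (y * Equiv.swap p₀ p) = f y := hinv y hy p₀ p hp₀.2 hp.2
    have h3 : y * x⁻¹ * (x * Equiv.swap p₀ p) = y * Equiv.swap p₀ p := by group
    show |f y - f x| ≤ |f (y * x⁻¹ * (x * Equiv.swap p₀ p)) - f (x * Equiv.swap p₀ p)|
    rw [h3, h1, h2]
  -- preimages of `Y` are infinite
  have hpre : ∀ x : Equiv.Perm X, {p | x p ∈ Y}.Infinite := by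
    intro x
    have : {p | x p ∈ Y} = x.symm '' Y := by
      ext p
      simp only [Set.mem_ofPred_eq, Set.mem_image]
      constructor
      · intro h
        exact ⟨x p, h, by simp⟩
      · rintro ⟨q, hq, rfl⟩
        simpa using hq
    rw [this]
    exact (Set.infinite_range_of_injective ι.injective).image x.symm.injective.injOn
  -- Lemma B
  have lemB : ∀ x y : Equiv.Perm X, x ∉ C → y ∉ C → f x = f y := by
    intro x y hx hy
    by_cases hinf : {p | x p ∈ Y ∧ y p ∈ Y}.Infinite
    · exact lemA x y hx hy hinf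
    rw [Set.not_infinite] at hinf
    have hU : ({p | x p ∈ Y} \ {p | x p ∈ Y ∧ y p ∈ Y}).Infinite := (hpre x).sdiff hinf
    have hV : ({p | y p ∈ Y} \ {p | x p ∈ Y ∧ y p ∈ Y}).Infinite := (hpre y).sdiff hinf
    have := hU.to_subtype
    have := hV.to_subtype
    let u := Infinite.natEmbedding ↥({p | x p ∈ Y} \ {p | x p ∈ Y ∧ y p ∈ Y})
    let v := Infinite.natEmbedding ↥({p | y p ∈ Y} \ {p | x p ∈ Y ∧ y p ∈ Y})
    have hu1 : ∀ n, x (u n : X) ∈ Y := fun n => (u n).2.1
    have hu2 : ∀ n, y (u n : X) ∉ Y := fun n h => (u n).2.2 ⟨(u n).2.1, h⟩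
    have hv1 : ∀ n, y (v n : X) ∈ Y := fun n => (v n).2.1
    have hv2 : ∀ n, x (v n : X) ∉ Y := fun n h => (v n).2.2 ⟨h, (v n).2.1⟩
    let e : ℕ ⊕ ℕ ↪ X :=
      ⟨Sum.elim (fun n => (u n : X)) (fun n => (v n : X)), by
        rintro (m | m) (n | n) h
        · simp only [Sum.elim_inl] at h
          exact congrArg Sum.inl (u.injective (Subtype.ext h))
        · simp only [Sum.elim_inl, Sum.elim_inr] at h
          exact absurd (h ▸ hv1 n) (hu2 m)
        · simp only [Sum.elim_inl, Sum.elim_inr] at h
          exact absurd (h ▸ hu1 n) (hv2 m)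
        · simp only [Sum.elim_inr] at h
          exact congrArg Sum.inr (v.injective (Subtype.ext h))⟩
    -- the involution of `ℕ ⊕ ℕ` exchanging the two copies of the elements of `S`
    let τf : Set ℕ → ℕ ⊕ ℕ → ℕ ⊕ ℕ := fun S =>
      Sum.elim (fun k => if k ∈ S then Sum.inr k else Sum.inl k)
        (fun k => if k ∈ S then Sum.inl k else Sum.inr k)
    have hτ : ∀ S, Function.Involutive (τf S) := by
      rintro S (k | k) <;> by_cases hk : k ∈ S <;> simp [τf, hk]
    let τ : Set ℕ → Equiv.Perm (ℕ ⊕ ℕ) := fun S => (hτ S).toPerm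
    have hτ_inj : Function.Injective τ := by
      intro S T hST
      ext k
      have h1 : τ S (Sum.inl k) = τ T (Sum.inl k) := by rw [hST]
      simp only [τ, Function.Involutive.coe_toPerm, τf, Sum.elim_inl] at h1
      by_cases hS : k ∈ S <;> by_cases hT : k ∈ T <;> simp_all
    -- sets containing all multiples of three, no numbers congruent to two, arbitrary otherwise
    let A : Set ℕ → Set ℕ := fun B => {k | k % 3 = 0 ∨ (k % 3 = 1 ∧ k / 3 ∈ B)}
    have hA_inj : Function.Injective A := by
      intro S T hST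
      ext k
      have h1 : (3 * k + 1) ∈ A S ↔ (3 * k + 1) ∈ A T := by rw [hST]
      have e1 : (3 * k + 1) % 3 = 1 := by omega
      have e2 : (3 * k + 1) / 3 = k := by omega
      simpa [A, e1, e2] using h1
    let z : Set ℕ → Equiv.Perm X := fun B => x * (τ (A B)).viaEmbedding e
    have hz_inj : Function.Injective z := by
      intro S T hST
      apply hA_inj
      apply hτ_inj
      have h1 : (τ (A S)).viaEmbedding e = (τ (A T)).viaEmbedding e := mul_left_cancel hST
      exact Equiv.Perm.viaEmbeddingHom_injective e h1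
    have hex : ∃ B, z B ∉ C := by
      by_contra hcon
      push Not at hcon
      have h1 : (Set.univ : Set (Set ℕ)).Countable := by
        have h2 : (z ⁻¹' C).Countable := hC.preimage_of_injOn hz_inj.injOn
        refine h2.mono ?_
        intro B _
        exact hcon B
      have h3 : Countable (Set ℕ) := Set.countable_univ_iff.mp h1
      exact not_countable_set_nat h3
    obtain ⟨B, hB⟩ := hex
    have hz1 : ∀ k, z B (e (k)) = x (e (τ (A B) k)) := by
      intro k
      simp only [z, Equiv.Perm.coe_mul, Function.comp_apply, Equiv.Perm.viaEmbedding_apply]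
    have hxz : f x = f (z B) := by
      apply lemA x (z B) hx hB
      have hsub : range (fun k : ℕ => (e (Sum.inl (3 * k + 2)) : X)) ⊆
          {p | x p ∈ Y ∧ z B p ∈ Y} := by
        rintro _ ⟨k, rfl⟩
        refine ⟨hu1 _, ?_⟩
        show z B (e (Sum.inl (3 * k + 2))) ∈ Y
        rw [hz1]
        have h3 : τ (A B) (Sum.inl (3 * k + 2)) = Sum.inl (3 * k + 2) := by
          have h4 : (3 * k + 2) ∉ A B := by
            have e1 : (3 * k + 2) % 3 = 2 := by omega
            simp [A, e1]
          simp [τ, τf, h4]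
        rw [h3]
        exact hu1 _
      refine Set.Infinite.mono hsub (Set.infinite_range_of_injective ?_)
      intro a b hab
      have := e.injective hab
      simp only [Sum.inl.injEq] at this
      omega
    have hyz : f y = f (z B) := by
      apply lemA y (z B) hy hB
      have hsub : range (fun k : ℕ => (e (Sum.inr (3 * k)) : X)) ⊆
          {p | y p ∈ Y ∧ z B p ∈ Y} := by
        rintro _ ⟨k, rfl⟩
        refine ⟨hv1 _, ?_⟩
        show z B (e (Sum.inr (3 * k))) ∈ Y
        rw [hz1]
        have h3 : τ (A B) (Sum.inr (3 * k)) = Sum.inl (3 * k) := by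
          have h4 : (3 * k) ∈ A B := by
            have e1 : (3 * k) % 3 = 0 := by omega
            simp [A, e1]
          simp [τ, τf, h4]
        rw [h3]
        exact hu1 _
      refine Set.Infinite.mono hsub (Set.infinite_range_of_injective ?_)
      intro a b hab
      have := e.injective hab
      simp only [Sum.inr.injEq] at this
      omega
    rw [hxz, hyz]
  -- the group is uncountable
  have hunc : ¬ (Set.univ : Set (Equiv.Perm X)).Countable := by
    intro hcount
    have h0 : Countable (Equiv.Perm X) := Set.countable_univ_iff.mp hcount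
    have h1 : Function.Injective (fun S : Set ℕ => ((fun S : Set ℕ =>
        ((Function.Involutive.toPerm (fun k : ℕ ⊕ ℕ =>
          (Sum.elim (fun k => if k ∈ S then Sum.inr k else Sum.inl k)
            (fun k => if k ∈ S then Sum.inl k else Sum.inr k) k : ℕ ⊕ ℕ))
          (by rintro (k | k) <;> by_cases hk : k ∈ S <;> simp [hk]) :
            Equiv.Perm (ℕ ⊕ ℕ))).viaEmbedding
          ((Equiv.natSumNatEquivNat.toEmbedding).trans ι)) S)) := by
      intro S T hST
      have h2 := Equiv.Perm.viaEmbeddingHom_injective _ hST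
      ext k
      have h3 := congrArg (fun e : Equiv.Perm (ℕ ⊕ ℕ) => e (Sum.inl k)) h2
      simp only [Function.Involutive.coe_toPerm, Sum.elim_inl] at h3
      by_cases hS : k ∈ S <;> by_cases hT : k ∈ T <;> simp_all
    have h4 : Countable (Set ℕ) := h1.countable
    exact not_countable_set_nat h4
  obtain ⟨x₀, hx₀⟩ : ∃ x₀, x₀ ∉ C := by
    by_contra hcon
    push Not at hcon
    exact hunc (hC.mono fun x _ => hcon x)
  have hconst : ∀ x, x ∉ C → f x = f x₀ := fun x hx => lemB x x₀ hx hx₀
  -- an element moving `C` off itself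
  obtain ⟨g, hg⟩ : ∃ g : Equiv.Perm X, g ∉ (C * C⁻¹ : Set (Equiv.Perm X)) := by
    by_contra hcon
    push Not at hcon
    apply hunc
    have h1 : (C * C⁻¹ : Set (Equiv.Perm X)).Countable := by
      have h2 : (C⁻¹ : Set (Equiv.Perm X)).Countable := by
        rw [← Set.image_inv_eq_inv]
        exact hC.image _
      rw [← Set.image_mul_prod]
      exact (hC.prod h2).image _
    exact h1.mono fun x _ => hcon x
  have hgC : ∀ x ∈ C, g * x ∉ C := by
    intro x hx hgx
    apply hg
    refine ⟨g * x, hgx, x⁻¹, ?_, ?_⟩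
    · simpa using hx
    · simp
  refine ⟨f x₀, fun O hO => ?_⟩
  obtain ⟨ε, hε, hball⟩ := Metric.mem_nhds_iff.mp hO
  have hfin := hf g ε hε
  refine hfin.subset ?_
  intro x hx
  have h1 : ε ≤ |f x - f x₀| := by
    by_contra hcon
    push Not at hcon
    apply hx
    apply hball
    simpa [Real.dist_eq] using hcon
  have h2 : x ∈ C := by
    by_contra hcon
    rw [hconst x hcon] at h1
    simp at h1
    linarith
  show ε ≤ |f (g * x) - f x|
  rw [hconst (g * x) (hgC x h2), abs_sub_comm]
  exact h1

end Pool.Agent.Results.MP_5c36f9_al.SymmetricGroup
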